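import Mathlib
import Pool.Agent.H447R2.MZ.Alg

set_option autoImplicit false

namespace Pool.Agent.Results.MP_56e040_nt.GrowthTrichotomy

open Filter

/-- The `ℚ`-span of the multiple zeta values of weight `n` (the empty index has value `1`). -/
noncomputable def Z (n : ℕ) : Submodule ℚ ℝ :=
  Submodule.span ℚ
    {x : ℝ | ∃ k : ℕ, ∃ s : Fin k → ℕ,
      (∀ i, 1 ≤ s i) ∧ (∀ h : 0 < k, 2 ≤ s ⟨0, h⟩) ∧ (∑ i, s i) = n ∧
      x = ∑' m : {m : Fin k → ℕ // StrictAnti m ∧ ∀ i, 0 < m i},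
            ∏ i, (((m.1 i : ℕ) : ℝ) ^ (s i))⁻¹}

/-- The sequence `dim Z n` (the spaces are finite dimensional) satisfies one of the following:
it grows at least linearly; or every element of `Z n` is an algebraic multiple of `π ^ n` for all
`n`, and either the dimensions tend to infinity or they are eventually constant, equal to the
degree of a real number field. -/
theorem result :
    (∀ n, Module.Finite ℚ (Z n)) ∧
    ((∃ k : ℕ, 3 ≤ k ∧ ∀ n : ℕ, 2 ≤ n →
        (n - 3 * (n % 2)) / (2 * k) + 1 ≤ Module.finrank ℚ (Z n)) ∨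
      ((∀ n, ∀ z ∈ Z n, IsAlgebraic ℚ (z / Real.pi ^ n)) ∧
        (Tendsto (fun n => Module.finrank ℚ (Z n)) atTop atTop ∨
          ∃ K : IntermediateField ℚ ℝ, Module.Finite ℚ K ∧
            ∀ᶠ n in atTop, Module.finrank ℚ (Z n) = Module.finrank ℚ K))) := by
  refine ⟨Pool.Agent.H447R2.MZ.finite_Zs, ?_⟩
  by_cases h2 : ∀ n, ∀ z ∈ Z n, IsAlgebraic ℚ (z / Real.pi ^ n)
  · right
    refine ⟨h2, ?_⟩
    rcases Pool.Agent.H447R2.MZ.tendsto_or_bounded with h3 | ⟨b, hb⟩
    · exact Or.inl h3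
    · right
      obtain ⟨K, hK, _, _, N, _, _, hN⟩ := Pool.Agent.H447R2.MZ.bounded_structure b hb
      exact ⟨K, hK, eventually_atTop.2 ⟨2 * N + 3, hN⟩⟩
  · left
    push Not at h2
    obtain ⟨k, z, hz, ht⟩ := h2
    refine ⟨k, ?_, fun n hn => Pool.Agent.H447R2.MZ.growth' k z hz ht n hn⟩
    by_contra hlt
    have hk : k < 3 := by omega
    interval_cases k
    · obtain ⟨q, rfl⟩ := Pool.Agent.H447R2.MZ.Zs_zero hz
      apply ht
      simpa using (isAlgebraic_ratCast ℚ q : IsAlgebraic ℚ ((q : ℝ)))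
    · apply ht
      rw [Pool.Agent.H447R2.MZ.Zs_one hz, zero_div]
      exact isAlgebraic_zero
    · obtain ⟨q, rfl⟩ := Pool.Agent.H447R2.MZ.Zs_two hz
      apply ht
      have : (q : ℝ) * Real.pi ^ 2 / Real.pi ^ 2 = q := by
        have : Real.pi ^ 2 ≠ 0 := pow_ne_zero _ Real.pi_ne_zero
        field_simp
      rw [this]
      exact isAlgebraic_ratCast ℚ q

end Pool.Agent.Results.MP_56e040_nt.GrowthTrichotomy
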